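import Pool.Agent.Helper44.BB.Stmts

set_option autoImplicit false

/-! # KSM: the sum over the pairs of cofactor and smooth part -/

namespace Pool.Agent.Helper44.BB

open Finset

theorem ksm_split {z Q : ℝ} {w m : ℕ} (hk : Squarefree (w * m)) (hwQ : (w : ℝ) ≤ Q)
    (hQz : Q ≤ z) : Squarefree w ∧ dl (sp z (w * m)) = dl (sp z m) + dl w ∧
      dl (w * m) = dl m + dl w := by
  have hc : w.Coprime m := Nat.coprime_of_squarefree_mul hk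
  have hw : Squarefree w := hk.of_mul_left
  refine ⟨hw, ?_, by rw [dl_mul hc, add_comm]⟩
  rw [sp_mul hc, sp_self hw fun q _ hd => ?_, dl_mul (hc.coprime_dvd_right (sp_dvd z m)),
    add_comm]
  exact (Nat.cast_le.2 (Nat.le_of_dvd (Nat.pos_of_ne_zero hw.ne_zero) hd)).trans
    (hwQ.trans hQz)

/-- the conditions on a pair -/
structure ksm_P (L x z Q : ℝ) (c : ℕ × ℕ) : Prop where
  s1 : Squarefree c.1
  s2 : Squarefree c.2
  l1 : (c.1 : ℝ) ≤ x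
  l2 : (c.2 : ℝ) ≤ x
  d1 : dl (sp z c.1) ≤ 2 * L
  d2 : dl c.2 ≤ 2 * L
  lo : 1 - 8 * L ^ 2 / z ≤ dl (sp z c.1) * dl c.2
  hi : dl (sp z c.1) * dl c.2 ≤ 1

theorem ksm_one (hUNI : ST_UNI) (hINJ : ST_INJ) (K : Finset (ℕ × ℕ)) (x z Q W : ℝ)
    (hL : 1 ≤ Real.log x) (hW : 1 ≤ W) (hQ : 1 ≤ Q) (hz : 32 * Real.log x ^ 3 * Q ^ 2 < z)
    (hx : 1 ≤ x) (hQz : Q ≤ z)
    (hK : ∀ c ∈ K, ksm_P (Real.log x) x z Q c ∧ ∃ w : ℕ, W ≤ w ∧ (w : ℝ) ≤ Q ∧ w ∣ c.1) :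
    ∑ c ∈ K, 1 / ((c.1 : ℝ) * c.2) ≤ (1 + Real.log x) ^ 2 / W := by
  classical
  have hg : ∀ c : ℕ × ℕ, ∃ w : ℕ, c ∈ K → W ≤ w ∧ (w : ℝ) ≤ Q ∧ w ∣ c.1 := fun c => by
    by_cases hc : c ∈ K
    · obtain ⟨w, hw⟩ := (hK c hc).2
      exact ⟨w, fun _ => hw⟩
    · exact ⟨0, fun h => absurd h hc⟩
  choose g hg using hg
  refine hINJ K x W g (by linarith) hx (fun c hc => ?_) ?_
  · obtain ⟨h, -⟩ := hK c hc
    exact ⟨Nat.pos_of_ne_zero h.s1.ne_zero, Nat.pos_of_ne_zero h.s2.ne_zero, h.l1, h.l2,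
      (hg c hc).1, (hg c hc).2.2⟩
  · rintro ⟨k, s⟩ hc ⟨k', s'⟩ hc' he
    have hc := Finset.mem_coe.1 hc
    have hc' := Finset.mem_coe.1 hc'
    simp only [Prod.mk.injEq] at he
    obtain ⟨he, rfl⟩ := he
    obtain ⟨h, -⟩ := hK _ hc
    obtain ⟨h', -⟩ := hK _ hc'
    obtain ⟨-, hq, m, hm⟩ := hg _ hc
    obtain ⟨-, hq', m', hm'⟩ := hg _ hc'
    dsimp only at hm hm'
    have p1 : 0 < g (k, s) := Nat.pos_of_ne_zero fun h0 => h.s1.ne_zero (by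
      rw [h0, Nat.zero_mul] at hm; exact hm)
    have p2 : 0 < g (k', s) := Nat.pos_of_ne_zero fun h0 => h'.s1.ne_zero (by
      rw [h0, Nat.zero_mul] at hm'; exact hm')
    have e1 : k / g (k, s) = m := Nat.div_eq_of_eq_mul_right p1 hm
    have e2 : k' / g (k', s) = m' := Nat.div_eq_of_eq_mul_right p2 hm'
    rw [e1, e2] at he
    subst he
    have t1 := h.s1
    have t2 := h'.s1
    have a1 := h.d1
    have a2 := h.lo
    have a3 := h.hi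
    have b2 := h'.lo
    have b3 := h'.hi
    dsimp only at t1 t2 a1 a2 a3 b2 b3
    have u1 := ksm_split (z := z) (Q := Q) (w := g (k, s)) (m := m) (by rw [← hm]; exact t1) hq hQz
    have u2 := ksm_split (z := z) (Q := Q) (w := g (k', s)) (m := m) (by rw [← hm']; exact t2) hq' hQz
    rw [← hm] at u1
    rw [← hm'] at u2
    rw [u1.2.1] at a1 a2 a3
    rw [u2.2.1] at b2 b3
    have hw := hUNI (Real.log x) z Q (dl (sp z m)) (dl s) _ _ hL hQ hz u1.1 u2.1 hq hq'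
      (dl_nonneg s) a1 a2 a3 b2 b3
    have : k = k' := by rw [hm, hm', hw]
    rw [this]

theorem ksm_two (hUNI : ST_UNI) (hINJ : ST_INJ) (K : Finset (ℕ × ℕ)) (x z Q W : ℝ)
    (hL : 1 ≤ Real.log x) (hW : 1 ≤ W) (hQ : 1 ≤ Q) (hz : 32 * Real.log x ^ 3 * Q ^ 2 < z)
    (hx : 1 ≤ x) (hQz : Q ≤ z)
    (hK : ∀ c ∈ K, ksm_P (Real.log x) x z Q c ∧ ∃ w : ℕ, W ≤ w ∧ (w : ℝ) ≤ Q ∧ w ∣ c.2) :
    ∑ c ∈ K, 1 / ((c.1 : ℝ) * c.2) ≤ (1 + Real.log x) ^ 2 / W := by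
  classical
  have hg : ∀ c : ℕ × ℕ, ∃ w : ℕ, c.swap ∈ K → W ≤ w ∧ (w : ℝ) ≤ Q ∧ w ∣ c.1 := fun c => by
    by_cases hc : c.swap ∈ K
    · obtain ⟨w, hw⟩ := (hK c.swap hc).2
      exact ⟨w, fun _ => hw⟩
    · exact ⟨0, fun h => absurd h hc⟩
  choose g hg using hg
  have hsum : ∑ c ∈ K, 1 / ((c.1 : ℝ) * c.2) =
      ∑ c ∈ K.image Prod.swap, 1 / ((c.1 : ℝ) * c.2) := by
    rw [sum_image fun a _ b _ h => Prod.swap_injective h]
    refine sum_congr rfl fun c _ => ?_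
    rw [Prod.fst_swap, Prod.snd_swap, mul_comm]
  have hmem : ∀ c ∈ K.image Prod.swap, c.swap ∈ K := fun c hc => by
    obtain ⟨d, hd, rfl⟩ := mem_image.1 hc
    rwa [Prod.swap_swap]
  rw [hsum]
  refine hINJ (K.image Prod.swap) x W g (by linarith) hx (fun c hc => ?_) ?_
  · obtain ⟨h, -⟩ := hK c.swap (hmem c hc)
    exact ⟨Nat.pos_of_ne_zero h.s2.ne_zero, Nat.pos_of_ne_zero h.s1.ne_zero, h.l2, h.l1,
      (hg c (hmem c hc)).1, (hg c (hmem c hc)).2.2⟩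
  · rintro ⟨k, s⟩ hc ⟨k', s'⟩ hc' he
    have hc := hmem _ (Finset.mem_coe.1 hc)
    have hc' := hmem _ (Finset.mem_coe.1 hc')
    simp only [Prod.mk.injEq] at he
    obtain ⟨he, rfl⟩ := he
    obtain ⟨h, -⟩ := hK _ hc
    obtain ⟨h', -⟩ := hK _ hc'
    obtain ⟨-, hq, m, hm⟩ := hg _ hc
    obtain ⟨-, hq', m', hm'⟩ := hg _ hc'
    dsimp only at hm hm'
    have t1 := h.s2
    have t2 := h'.s2
    have a1 := h.d2
    have a2 := h.lo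
    have a3 := h.hi
    have b2 := h'.lo
    have b3 := h'.hi
    dsimp only [Prod.swap] at t1 t2 a1 a2 a3 b2 b3
    have p1 : 0 < g (k, s) := Nat.pos_of_ne_zero fun h0 => t1.ne_zero (by
      rw [h0, Nat.zero_mul] at hm; exact hm)
    have p2 : 0 < g (k', s) := Nat.pos_of_ne_zero fun h0 => t2.ne_zero (by
      rw [h0, Nat.zero_mul] at hm'; exact hm')
    have e1 : k / g (k, s) = m := Nat.div_eq_of_eq_mul_right p1 hm
    have e2 : k' / g (k', s) = m' := Nat.div_eq_of_eq_mul_right p2 hm'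
    rw [e1, e2] at he
    subst he
    have u1 := ksm_split (z := z) (Q := Q) (w := g (k, s)) (m := m) (by rw [← hm]; exact t1) hq hQz
    have u2 := ksm_split (z := z) (Q := Q) (w := g (k', s)) (m := m) (by rw [← hm']; exact t2) hq' hQz
    rw [← hm] at u1
    rw [← hm'] at u2
    rw [mul_comm (dl (sp z s))] at a2 a3 b2 b3
    rw [u1.2.2] at a1 a2 a3
    rw [u2.2.2] at b2 b3
    have hw := hUNI (Real.log x) z Q (dl m) (dl (sp z s)) _ _ hL hQ hz u1.1 u2.1 hq hq'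
      (dl_nonneg _) a1 a2 a3 b2 b3
    have : k = k' := by rw [hm, hm', hw]
    rw [this]

theorem st_KSM (hUNI : ST_UNI) (hINJ : ST_INJ) : ST_KSM := by
  classical
  intro K x z Q W hL hW hQ hz hK
  rcases K.eq_empty_or_nonempty with rfl | ⟨c₀, hc₀⟩
  · rw [sum_empty]
    positivity
  have hx : 1 ≤ x := by
    obtain ⟨h1, -, h2, -⟩ := hK c₀ hc₀
    exact (Nat.one_le_cast.2 (Nat.pos_of_ne_zero h1.ne_zero)).trans h2
  have hQz : Q ≤ z := by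
    have h1 : 1 ≤ Real.log x ^ 3 := one_le_pow₀ hL
    have h2 : Q ≤ Q ^ 2 := by nlinarith
    have h3 : Q ^ 2 ≤ Real.log x ^ 3 * Q ^ 2 := le_mul_of_one_le_left (by positivity) h1
    nlinarith
  have hP : ∀ c ∈ K, ksm_P (Real.log x) x z Q c := fun c hc => by
    obtain ⟨a1, a2, a3, a4, a5, a6, a7, a8, -⟩ := hK c hc
    exact ⟨a1, a2, a3, a4, a5, a6, a7, a8⟩
  have h1 := ksm_one hUNI hINJ
    (K.filter fun c => ∃ w : ℕ, W ≤ w ∧ (w : ℝ) ≤ Q ∧ w ∣ c.1) x z Q W hL hW hQ hz hx hQz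
    fun c hc => ⟨hP c (mem_filter.1 hc).1, (mem_filter.1 hc).2⟩
  have h2 := ksm_two hUNI hINJ
    (K.filter fun c => ∃ w : ℕ, W ≤ w ∧ (w : ℝ) ≤ Q ∧ w ∣ c.2) x z Q W hL hW hQ hz hx hQz
    fun c hc => ⟨hP c (mem_filter.1 hc).1, (mem_filter.1 hc).2⟩
  have h3 : K ⊆ (K.filter fun c => ∃ w : ℕ, W ≤ w ∧ (w : ℝ) ≤ Q ∧ w ∣ c.1) ∪
      (K.filter fun c => ∃ w : ℕ, W ≤ w ∧ (w : ℝ) ≤ Q ∧ w ∣ c.2) := fun c hc => by
    obtain ⟨-, -, -, -, -, -, -, -, w, w1, w2, w3⟩ := hK c hc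
    rcases w3 with w3 | w3
    · exact mem_union_left _ (mem_filter.2 ⟨hc, w, w1, w2, w3⟩)
    · exact mem_union_right _ (mem_filter.2 ⟨hc, w, w1, w2, w3⟩)
  have hnn : ∀ c : ℕ × ℕ, 0 ≤ 1 / ((c.1 : ℝ) * c.2) := fun c => by positivity
  calc ∑ c ∈ K, 1 / ((c.1 : ℝ) * c.2)
      ≤ ∑ c ∈ (K.filter fun c => ∃ w : ℕ, W ≤ w ∧ (w : ℝ) ≤ Q ∧ w ∣ c.1) ∪
        (K.filter fun c => ∃ w : ℕ, W ≤ w ∧ (w : ℝ) ≤ Q ∧ w ∣ c.2), 1 / ((c.1 : ℝ) * c.2) :=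
        sum_le_sum_of_subset_of_nonneg h3 fun c _ _ => hnn c
    _ ≤ ∑ c ∈ (K.filter fun c => ∃ w : ℕ, W ≤ w ∧ (w : ℝ) ≤ Q ∧ w ∣ c.1),
          1 / ((c.1 : ℝ) * c.2) +
        ∑ c ∈ (K.filter fun c => ∃ w : ℕ, W ≤ w ∧ (w : ℝ) ≤ Q ∧ w ∣ c.2),
          1 / ((c.1 : ℝ) * c.2) := by
        rw [← sum_union_inter]
        exact le_add_of_nonneg_right (sum_nonneg fun c _ => hnn c)
    _ ≤ (1 + Real.log x) ^ 2 / W + (1 + Real.log x) ^ 2 / W := add_le_add h1 h2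
    _ = 2 * (1 + Real.log x) ^ 2 / W := by ring

end Pool.Agent.Helper44.BB
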